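import Pool.Agent.H59.L.T374d34.N483.KM.StmF
import Pool.Agent.H59.L.S8.R755.KF.M
import Pool.Agent.H59.L.S8.R755.KF.All
import Pool.Agent.H59.L.S8.R755.KF.W1

/-!
# CCL: concentration for the body from its large fibres

The proofs are those of `Pool/Agent/R755/KF/K5W.lean` and `Pool/Agent/R755/KF/M.lean`; only the
fibres `t` with `ε * S ≤ Rv K t` are used.
-/

set_option autoImplicit false

namespace Pool.Agent.N27.KM

open MeasureTheory Set Filter Topology
open scoped ENNReal InnerProductSpace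
open Pool.Agent.H888R2.KT (gs gc gc_pos gs_deriv)
open Pool.Agent.R754.KG (E un sl Rv un_prob un_int)
open Pool.Agent.Y506.PV (CcW ind)
open Pool.Agent.Y506.RG (EW VW)
open Pool.Agent.R755.KF

/-- from one fibre to the next; only the large fibres are used -/
def S_CHNWL : Prop := ∀ (d : ℕ) (ε γ δ : ℝ), 0 < ε → ε < 1 → 0 < γ → 0 < δ →
  ∃ δ' ρ : ℝ, 0 < δ' ∧ 0 < ρ ∧ ρ < 1 ∧ ∀ A0 : ℝ, 0 < A0 → ∃ C C2 : ℝ, 0 < C ∧ 0 < C2 ∧
  ∀ (N k : ℕ) (K : Set (E N × E d)), CB K →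
  ∀ (T : E N × E d →ₗ[ℝ] E k) (s S : ℝ), 0 < s → 0 < S → (∀ t, Rv K t ≤ S) →
  (∀ t, ε * S ≤ Rv K t → KW A0 δ' (sl K t)) →
  (∀ θ : E k, ‖θ‖ = 1 →
    (∫ z, ⟪T z, θ⟫_ℝ ^ 2 ∂(un K)) - (∫ z, ⟪T z, θ⟫_ℝ ∂(un K)) ^ 2 ≤ s) →
  ∀ ts : E d, (1 - ρ) * S ≤ Rv K ts → ∀ t : E d, ε * S ≤ Rv K (ts + (1 + γ) • (t - ts)) →
  ∀ (f : E k → ℝ) (L : ℝ), ContDiff ℝ 1 f → 0 ≤ L → (∀ y, |f y| ≤ 1) →
  (∀ y, ‖fderiv ℝ f y‖ ≤ L) →
  ey (C * s) (lw K T t) (fun y => (f y - ey (C * s) (lw K T ts) f) ^ 2) ≤ C2 * s * L ^ 2 + δ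

section K5

open K5Waux T36

variable {N d k : ℕ} {K : Set (E N × E d)}

theorem pw_fibL (h2 : S_MOM) (hK : CB K) (T : E N × E d →ₗ[ℝ] E k) {s S ε A0 δ' B : ℝ}
    (hs0 : 0 < s) (hS : 0 < S)
    (hε : 0 < ε) (hR : ∀ t, Rv K t ≤ S)
    (hs : ∀ θ : E k, ‖θ‖ = 1 →
      (∫ z, ⟪T z, θ⟫_ℝ ^ 2 ∂(un K)) - (∫ z, ⟪T z, θ⟫_ℝ ∂(un K)) ^ 2 ≤ s)
    (hB : ∀ z ∈ K, ‖T z‖ ≤ B)
    (hKW : ∀ t, ε * S ≤ Rv K t → KW A0 δ' (sl K t))
    (τ : E d) (hτ : ε * S ≤ Rv K τ) :
    PW (A0 * (36 * 4 ^ d / ε) * s) δ' (36 * 4 ^ d / ε * s) B (lw K T τ) := by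
  have hR0 : 0 < Rv K τ := lt_of_lt_of_le (by positivity) hτ
  have hv0 := vol_ne hR0
  have hprob : IsProbabilityMeasure (un (sl K τ)) :=
    un_prob hv0 (sl_bdd hK.comp τ).measure_lt_top.ne
  refine ⟨pb_fib hK T hB τ hR0, ?_, ?_⟩
  · intro C f hf hf1
    have hfc : Continuous f := hf.c1.continuous
    have hfd : Continuous (fderiv ℝ f) := cont_fd hf
    rw [lw_int T τ (g := fun y => f y ^ 2) (hfc.pow 2), lw_int T τ hfc, lw_int T τ (g := fun x => ‖fderiv ℝ f x‖ ^ 2)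
      (hfd.norm.pow 2)]
    set w0 : E k := T (0, τ) with hw0
    set T' : E N →ₗ[ℝ] E k := T ∘ₗ LinearMap.inl ℝ (E N) (E d) with hT'
    have hT'x : ∀ x, T' x + w0 = T (x, τ) := by
      intro x
      rw [hT', hw0, LinearMap.comp_apply, LinearMap.inl_apply, ← map_add]
      congr 1
      ext <;> simp
    have hkw := hKW τ hτ k T' (36 * 4 ^ d / ε * s) (by positivity) (by
      intro θ hθ
      have h3 := (fib_lin h2 hK T hS hε hR hs τ hτ θ).1
      rw [hθ, one_pow, mul_one] at h3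
      have hc : Continuous fun x : E N => ⟪T (x, τ), θ⟫_ℝ := (Tscont T τ).inner continuous_const
      have i1 : Integrable (fun x : E N => ⟪T (x, τ), θ⟫_ℝ) (un (sl K τ)) :=
        un_int hv0 (sl_bdd hK.comp τ) hc
      have i2 : Integrable (fun x : E N => ⟪T (x, τ), θ⟫_ℝ ^ 2) (un (sl K τ)) :=
        un_int hv0 (sl_bdd hK.comp τ) (hc.pow 2)
      have e1 : ∀ x, ⟪T' x, θ⟫_ℝ = ⟪T (x, τ), θ⟫_ℝ - ⟪w0, θ⟫_ℝ := by
        intro x
        rw [← hT'x x, inner_add_left]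
        ring
      simp_rw [e1]
      rw [sq_exp i1 i2, integral_sub i1 (integrable_const _), integral_const, probReal_univ,
        one_smul]
      nlinarith) C (fun y => f (y + w0))
      ⟨hf.c1.comp (contDiff_id.add contDiff_const), fun y => hf.bd _, fun y => by
        rw [fderiv_comp_add_right]; exact hf.gd _⟩
      (fun y => hf1 _)
    simp only [fderiv_comp_add_right, hT'x] at hkw
    refine hkw.trans (le_of_eq ?_)
    ring
  · intro v
    have hc1 : Continuous fun y : E k => ⟪y, v⟫_ℝ := continuous_id.inner continuous_const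
    rw [lw_int T τ (g := fun y => ⟪y, v⟫_ℝ ^ 2) (hc1.pow 2), lw_int T τ hc1]
    exact (fib_lin h2 hK T hS hε hR hs τ hτ v).1

theorem chnwL (h1 : S_GEO) (h2 : S_MOM) (h3 : S_ETA) (h4 : S_FIB) (h5 : S_PLH) (h6 : S_TMW)
    (h7 : S_GP) : S_CHNWL := by
  intro d ε γ δ hε hε1 hγ hδ
  obtain ⟨n, ρ0, hn, hρ0, hρ01, heta⟩ := h3 ε γ (1 / 8000) hε hε1 hγ (by norm_num)
  have hnr : (0 : ℝ) < n := by exact_mod_cast hn
  refine ⟨min (1 / 10 ^ 11) (δ / (1 + (n : ℝ) ^ 2)), min ρ0 (1 - ε), by positivity,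
    lt_min hρ0 (by linarith), (min_le_left _ _).trans_lt hρ01, ?_⟩
  set δ' := min (1 / 10 ^ 11) (δ / (1 + (n : ℝ) ^ 2)) with hδ'
  have hδ'0 : 0 < δ' := by positivity
  have hδ'1 : δ' ≤ 1 / 10 ^ 11 := min_le_left _ _
  have hδ'2 : (1 + (n : ℝ) ^ 2) * δ' ≤ δ := by
    have h9 : δ' ≤ δ / (1 + (n : ℝ) ^ 2) := min_le_right _ _
    rw [le_div_iff₀ (by positivity)] at h9
    linarith
  intro A0 hA0
  set A2 : ℝ := 36 * 4 ^ d / ε with hA2
  have hA2p : 0 < A2 := by positivity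
  set C : ℝ := 64 * A0 * A2 + 64 * A2 + 32000 * A2 with hC
  have hCp : 0 < C := by positivity
  refine ⟨C, (1 + (n : ℝ) ^ 2) * (A0 * A2 + C), hCp, by positivity, ?_⟩
  intro N k K hK T s S hs0 hS hR hKW hs ts hts t ht f L hf hL hf1 hfL
  set u : E d := t - ts with hu
  set r : ℝ → ℝ := fun x => Rv K (ts + x • u) with hr
  have hr0 : r 0 = Rv K ts := by
    show Rv K (ts + (0 : ℝ) • u) = _
    rw [zero_smul, add_zero]
  have hr0' : (1 - min ρ0 (1 - ε)) * S ≤ r 0 := by rw [hr0]; exact hts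
  have hr00 : (1 - ρ0) * S ≤ r 0 := by
    refine le_trans ?_ hr0'
    apply mul_le_mul_of_nonneg_right _ hS.le
    have := min_le_left ρ0 (1 - ε)
    linarith
  have hr0ε : ε * S ≤ r 0 := by
    refine le_trans ?_ hr0'
    apply mul_le_mul_of_nonneg_right _ hS.le
    have := min_le_right ρ0 (1 - ε)
    linarith
  have hr1ε : ε * S ≤ r (1 + γ) := ht
  have hεS : 0 < ε * S := by positivity
  have hconc : ∀ x y l : ℝ, 0 < l → l < 1 → r x ^ (1 - l) * r y ^ l ≤ r ((1 - l) * x + l * y) := by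
    intro x y l hl0 hl1
    have h9 := h1 N d K hK (ts + x • u) (ts + y • u) l hl0 hl1
    have e1 : (1 - l) • (ts + x • u) + l • (ts + y • u) = ts + ((1 - l) * x + l * y) • u := by
      module
    rw [e1] at h9
    exact h9
  have hrε : ∀ x ∈ Icc (0 : ℝ) (1 + γ), ε * S ≤ r x := by
    rintro x ⟨hx0, hx1⟩
    rcases hx0.eq_or_lt with rfl | hx0
    · exact hr0ε
    rcases hx1.eq_or_lt with rfl | hx1
    · exact hr1ε
    have hl0 : 0 < x / (1 + γ) := by positivity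
    have hl1 : x / (1 + γ) < 1 := by
      rw [div_lt_one (by positivity)]
      exact hx1
    have h9 := hconc 0 (1 + γ) (x / (1 + γ)) hl0 hl1
    have e1 : (1 - x / (1 + γ)) * 0 + x / (1 + γ) * (1 + γ) = x := by
      field_simp
      ring
    rw [e1] at h9
    refine le_trans ?_ h9
    have e2 : (ε * S) ^ (1 - x / (1 + γ)) * (ε * S) ^ (x / (1 + γ)) = ε * S := by
      rw [← Real.rpow_add hεS]
      have : 1 - x / (1 + γ) + x / (1 + γ) = 1 := by ring
      rw [this, Real.rpow_one]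
    calc ε * S = (ε * S) ^ (1 - x / (1 + γ)) * (ε * S) ^ (x / (1 + γ)) := e2.symm
      _ ≤ r 0 ^ (1 - x / (1 + γ)) * r (1 + γ) ^ (x / (1 + γ)) := by
          apply mul_le_mul
          · exact Real.rpow_le_rpow hεS.le hr0ε (by linarith)
          · exact Real.rpow_le_rpow hεS.le hr1ε hl0.le
          · positivity
          · exact Real.rpow_nonneg (hεS.le.trans hr0ε) _
  have hrpos : ∀ x ∈ Icc (0 : ℝ) (1 + γ), 0 < r x := fun x hx => hεS.trans_le (hrε x hx)
  have hmid := heta r S hS (fun x hx => ⟨hrpos x hx, hR _⟩)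
    (fun x _ y _ l hl0 hl1 => hconc x y l hl0 hl1) hr00 hr1ε
  -- the fibres
  set tt : ℕ → E d := fun j => ts + ((j : ℝ) / n) • u with htt
  have hjI : ∀ j : ℕ, j ≤ n → ((j : ℝ) / n) ∈ Icc (0 : ℝ) (1 + γ) := by
    intro j hj
    refine ⟨by positivity, ?_⟩
    have h9 : (j : ℝ) / n ≤ 1 := by
      rw [div_le_one hnr]
      exact_mod_cast hj
    linarith
  have hRj : ∀ j : ℕ, j ≤ n → ε * S ≤ Rv K (tt j) := fun j hj => hrε _ (hjI j hj)
  obtain ⟨B0, hB0⟩ := hK.comp.exists_bound_of_continuousOn (Tcont T).continuousOn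
  set B : ℝ := max B0 0 with hBdef
  have hB : ∀ z ∈ K, ‖T z‖ ≤ B := fun z hz => (hB0 z hz).trans (le_max_left _ _)
  have hB0' : 0 ≤ B := le_max_right _ _
  have hPW : ∀ j : ℕ, j ≤ n → PW (A0 * A2 * s) δ' (A2 * s) B (lw K T (tt j)) := fun j hj =>
    pw_fibL h2 hK T hs0 hS hε hR hs hB hKW (tt j) (hRj j hj)
  have hBLf : BL (max 1 L) f :=
    ⟨hf, fun y => (hf1 y).trans (le_max_left _ _), fun y => (hfL y).trans (le_max_right _ _)⟩
  set h0 : ℝ := C * s with hh0
  have hh0p : 0 < h0 := by positivity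
  set R : ℝ := (A0 * A2 * s + h0) * L ^ 2 + δ' with hRdef
  have hR0 : 0 ≤ R := by positivity
  have hA2s : 0 < A2 * s := by positivity
  -- one step
  have hstep : ∀ j : ℕ, j < n →
      (ey h0 (lw K T (tt (j + 1))) f - ey h0 (lw K T (tt j)) f) ^ 2 ≤ R := by
    intro j hj
    have hj1 : j + 1 ≤ n := hj
    have hpa := hPW j hj.le
    have hpb := hPW (j + 1) hj1
    have hmean : ∀ i : ℕ, i ≤ n → ∀ v : E k,
        |(∫ x, ⟪x, v⟫_ℝ ∂(lw K T (tt i))) - ∫ z, ⟪T z, v⟫_ℝ ∂(un K)| ≤ Real.sqrt (A2 * s) * ‖v‖ := by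
      intro i hi v
      have hc1 : Continuous fun y : E k => ⟪y, v⟫_ℝ := continuous_id.inner continuous_const
      rw [lw_int T (tt i) hc1]
      have h9 := (fib_lin h2 hK T hS hε hR hs (tt i) (hRj i hi) v).2
      have h10 : (Real.sqrt (A2 * s) * ‖v‖) ^ 2 = 36 * 4 ^ d / ε * s * ‖v‖ ^ 2 := by
        rw [mul_pow, Real.sq_sqrt hA2s.le]
      rw [← h10] at h9
      exact abs_le_of_sq_le_sq h9 (by positivity)
    refine h6 k h0 (A0 * A2 * s) δ' (A2 * s) B (2 * Real.sqrt (A2 * s)) (1 / 8000) L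
      (lw K T (tt j)) (lw K T (tt (j + 1))) (by positivity) hδ'0.le hδ'1 hA2s.le ?_ ?_
      (by positivity) hB0' (by norm_num) hL le_rfl ?_ hpa hpb ?_ ?_ (max 1 L) f hBLf hf1 hfL
    · rw [hh0, hC]
      nlinarith [mul_pos hA2p hs0, mul_pos (mul_pos hA0 hA2p) hs0]
    · rw [hh0, hC]
      nlinarith [mul_pos hA2p hs0, mul_pos (mul_pos hA0 hA2p) hs0]
    · rw [mul_pow, Real.sq_sqrt hA2s.le, hh0, hC]
      nlinarith [mul_pos hA2p hs0, mul_pos (mul_pos hA0 hA2p) hs0]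
    · intro v
      have h9 := hmean j hj.le v
      have h10 := hmean (j + 1) hj1 v
      rw [abs_le] at h9 h10 ⊢
      constructor <;> linarith [h9.1, h9.2, h10.1, h10.2]
    · intro h hh
      have hhp : 0 < h := lt_of_lt_of_le hh0p hh
      have emid : (1 / 2 : ℝ) • (tt j + tt (j + 1)) = ts + (((j : ℝ) + 1 / 2) / n) • u := by
        simp only [htt]
        push_cast
        have e9 : ((j : ℝ) + 1 / 2) / n = 1 / 2 * ((j : ℝ) / n) + 1 / 2 * (((j : ℝ) + 1) / n) := by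
          field_simp
          ring
        rw [e9]
        module
      have hjm : (((j : ℝ) + 1 / 2) / n) ∈ Icc (0 : ℝ) (1 + γ) := by
        refine ⟨by positivity, ?_⟩
        have h9 : ((j : ℝ) + 1 / 2) / n ≤ 1 := by
          rw [div_le_one hnr]
          have : (j : ℝ) + 1 ≤ n := by exact_mod_cast hj1
          linarith
        linarith
      have hRm : ε * S ≤ Rv K ((1 / 2 : ℝ) • (tt j + tt (j + 1))) := by
        rw [emid]
        exact hrε _ hjm
      have p0 : 0 < Rv K (tt j) := hεS.trans_le (hRj j hj.le)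
      have p1 : 0 < Rv K (tt (j + 1)) := hεS.trans_le (hRj (j + 1) hj1)
      have pm : 0 < Rv K ((1 / 2 : ℝ) • (tt j + tt (j + 1))) := hεS.trans_le hRm
      have hfib := h4 N d k K T (tt j) (tt (j + 1)) hK p0 p1 pm
      have hle : Rv K ((1 / 2 : ℝ) • (tt j + tt (j + 1))) ^ 2 /
          (Rv K (tt j) * Rv K (tt (j + 1))) ≤ (1 + 1 / 8000) ^ 2 := by
        rw [div_le_iff₀ (mul_pos p0 p1), emid]
        have h9 := hmid j hj
        have e10 : r ((j : ℝ) / n) = Rv K (tt j) := rfl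
        have e11 : r (((j : ℝ) + 1) / n) = Rv K (tt (j + 1)) := by
          simp only [hr, htt]
          push_cast
          rfl
        rw [e10, e11] at h9
        have h10 : r (((j : ℝ) + 1 / 2) / n) ^ 2 ≤
            ((1 + 1 / 8000) * Real.sqrt (Rv K (tt j) * Rv K (tt (j + 1)))) ^ 2 :=
          pow_le_pow_left₀ (hrpos _ hjm).le h9 2
        rw [mul_pow, Real.sq_sqrt (mul_pos p0 p1).le] at h10
        exact h10
      exact h5 k h B (1 / 8000) _ _ _ hhp hB0' (by norm_num) hpa.pb hpb.pb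
        (pb_fib hK T hB _ pm) (pl3_mono hfib hle)
  -- telescoping
  have htel : ∀ j : ℕ, j ≤ n →
      |ey h0 (lw K T (tt j)) f - ey h0 (lw K T (tt 0)) f| ≤ j * Real.sqrt R := by
    intro j
    induction j with
    | zero =>
      intro _
      simp
    | succ j ih =>
      intro hj
      have h9 := ih (by omega)
      have h10 : |ey h0 (lw K T (tt (j + 1))) f - ey h0 (lw K T (tt j)) f| ≤ Real.sqrt R :=
        Real.abs_le_sqrt (hstep j (by omega))
      rw [abs_le] at h9 h10 ⊢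
      push_cast
      constructor <;> linarith [h9.1, h9.2, h10.1, h10.2]
  have e0 : tt 0 = ts := by
    simp only [htt, Nat.cast_zero, zero_div, zero_smul, add_zero]
  have en : tt n = t := by
    simp only [htt]
    rw [div_self hnr.ne', one_smul, hu]
    abel
  have hlast := htel n le_rfl
  have hPn := hPW n le_rfl
  rw [en, e0] at hlast
  rw [en] at hPn
  have hvar := var_leW rep h7 hh0p (by positivity) hPn hBLf hf1 hL hfL
  have hexp := exp2 rep hh0p hPn.pb hBLf (ey h0 (lw K T ts) f)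
  rw [hexp]
  have hsqd : (ey h0 (lw K T t) f - ey h0 (lw K T ts) f) ^ 2 ≤ (n : ℝ) ^ 2 * R := by
    have h9 := sq_le_sq' (neg_le_of_abs_le hlast) (le_of_abs_le hlast)
    rwa [mul_pow, Real.sq_sqrt hR0] at h9
  have hfin : (1 + (n : ℝ) ^ 2) * R ≤ (1 + (n : ℝ) ^ 2) * (A0 * A2 + C) * s * L ^ 2 + δ := by
    rw [hRdef, hh0]
    nlinarith [hδ'2]
  nlinarith [hvar, hsqd, hfin]

end K5

section MM

open Maux

variable {N d k : ℕ} {K : Set (E N × E d)}

/-- the estimate for functions of `T z + √h Z` -/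
theorem ylevL (hT : S_TAIL) (hC : S_CHNWL) (d : ℕ) (δ : ℝ) (hδ : 0 < δ) :
    ∃ ε δ' : ℝ, 0 < ε ∧ 0 < δ' ∧ ∀ A0 : ℝ, 0 < A0 → ∃ C κ : ℝ, 0 < C ∧ 0 < κ ∧
    ∀ (N k : ℕ) (K : Set (E N × E d)), CB K →
    (∀ t, (∀ t', ε * Rv K t' ≤ Rv K t) → KW A0 δ' (sl K t)) → ∀ (T : E N × E d →ₗ[ℝ] E k) (s : ℝ), 0 < s →
    (∀ θ : E k, ‖θ‖ = 1 →
      (∫ z, ⟪T z, θ⟫_ℝ ^ 2 ∂(un K)) - (∫ z, ⟪T z, θ⟫_ℝ ∂(un K)) ^ 2 ≤ s) →
    ∀ f : E k → ℝ, ContDiff ℝ 1 f → (∀ y, |f y| ≤ 1) → (∀ y, ‖fderiv ℝ f y‖ ≤ κ / Real.sqrt s) →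
    ∃ c : ℝ, ∫ z, gs (C * s) (fun y => (f y - c) ^ 2) (T z) ∂(un K) ≤ δ := by
  obtain ⟨ε, γ, ρ1, hε, hε1, hγ, hρ1, hρ1', H1⟩ := hT d (δ / 16) (by positivity)
  obtain ⟨δ', ρ2, hδ', hρ2, hρ2', H3⟩ := hC d ε γ (δ / 4) hε hε1 hγ (by positivity)
  refine ⟨ε, δ', hε, hδ', fun A0 hA0 => ?_⟩
  obtain ⟨C, C2, hCp, hC2, H2⟩ := H3 A0 hA0
  refine ⟨C, Real.sqrt (δ / (4 * C2)), hCp, Real.sqrt_pos.2 (by positivity), ?_⟩
  intro N k K h hfib T s hs hvar f hf hfb hfd
  obtain ⟨S, hSp, hS, ts, hts⟩ := sup_ex h (ρ := min ρ1 ρ2) (lt_min hρ1 hρ2)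
  have hts1 : (1 - ρ1) * S ≤ Rv K ts := le_trans
    (mul_le_mul_of_nonneg_right (by linarith [min_le_left ρ1 ρ2]) hSp.le) hts
  have hts2 : (1 - ρ2) * S ≤ Rv K ts := le_trans
    (mul_le_mul_of_nonneg_right (by linarith [min_le_right ρ1 ρ2]) hSp.le) hts
  have hhp : 0 < C * s := by positivity
  obtain ⟨κ, hκ⟩ : ∃ κ, κ = Real.sqrt (δ / (4 * C2)) := ⟨_, rfl⟩
  have hκ0 : 0 ≤ κ := by rw [hκ]; exact Real.sqrt_nonneg _
  have hκ2 : κ ^ 2 = δ / (4 * C2) := by rw [hκ, Real.sq_sqrt (by positivity)]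
  rw [← hκ] at hfd
  have hL0 : 0 ≤ κ / Real.sqrt s := by positivity
  have hL2 : C2 * s * (κ / Real.sqrt s) ^ 2 = δ / 4 := by
    rw [div_pow, Real.sq_sqrt hs.le, hκ2]
    field_simp
  have hTc : Continuous T := T.continuous_of_finiteDimensional
  have hTt : ∀ t : E d, Continuous fun p : E N => T (p, t) := fun t => by
    have : Continuous fun p : E N => (p, t) := by fun_prop
    exact hTc.comp this
  have hfc : Continuous f := hf.continuous
  obtain ⟨c, hc⟩ : ∃ c : ℝ, c = ey (C * s) (lw K T ts) f := ⟨_, rfl⟩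
  have hR0 : 0 < Rv K ts := lt_of_lt_of_le (by nlinarith) hts1
  have hL0' : volume (sl K ts) ≠ 0 := by
    rw [R_vol h ts]
    exact (ENNReal.ofReal_pos.2 hR0).ne'
  have hgc : Continuous (gs (C * s) f) := Pool.Agent.H888R2.KT.N7x.cont_gs _ hhp f hfc 1 hfb
  have hfb1 : ∀ x, |gs (C * s) f x| ≤ 1 := by
    intro x
    rw [abs_le]
    constructor
    · rw [← gs_const (C * s) hhp (-1) x]
      exact gs_mono _ hhp _ _ continuous_const hfc 1 (fun _ => by simp) hfb
        (fun y => (abs_le.1 (hfb y)).1) x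
    · conv_rhs => rw [← gs_const (C * s) hhp 1 x]
      exact gs_mono _ hhp _ _ hfc continuous_const 1 hfb (fun _ => by simp)
        (fun y => (abs_le.1 (hfb y)).2) x
  have hprob : IsProbabilityMeasure (un (sl K ts)) :=
    Pool.Agent.R754.KG.un_prob hL0' (sl_fin h ts)
  have hcb : |c| ≤ 1 := by
    rw [hc]
    unfold ey lw
    rw [integral_map (hTt ts).measurable.aemeasurable hgc.aestronglyMeasurable, ← Real.norm_eq_abs]
    refine (norm_integral_le_of_norm_le_const (C := 1) (Eventually.of_forall fun p => ?_)).trans ?_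
    · exact hfb1 _
    · simp
  have hqb : ∀ y, |(f y - c) ^ 2| ≤ 4 := by
    intro y
    have h1 := abs_le.1 (hfb y)
    have h2 := abs_le.1 hcb
    rw [abs_of_nonneg (sq_nonneg _)]
    nlinarith [h1.1, h1.2, h2.1, h2.2]
  obtain ⟨G, hG⟩ : ∃ G : E k → ℝ, G = gs (C * s) (fun y => (f y - c) ^ 2) := ⟨_, rfl⟩
  have hGc : Continuous G := by
    rw [hG]
    exact Pool.Agent.H888R2.KT.N7x.cont_gs _ hhp _ (by fun_prop) 4 hqb
  have hG0 : ∀ x, 0 ≤ G x := by
    intro x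
    rw [hG]
    exact gs_nonneg _ _ (fun y => sq_nonneg _) x
  have hG4 : ∀ x, G x ≤ 4 := by
    intro x
    rw [hG]
    have h4 := gs_const (k := k) (C * s) hhp 4 x
    conv_rhs => rw [← h4]
    exact gs_mono _ hhp _ _ (by fun_prop) continuous_const 4 hqb (fun _ => by norm_num)
      (fun y => (abs_le.1 (hqb y)).2) x
  refine ⟨c, ?_⟩
  rw [← hG]
  have hpt : ∀ t, ∫⁻ x in sl K t, ENNReal.ofReal (G (T (x, t))) ≤
      ENNReal.ofReal (δ / 2) * volume (sl K t) +
      {t | Rv K (ts + (1 + γ) • (t - ts)) < ε * S}.indicator (fun t => 4 * volume (sl K t)) t := by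
    intro t
    by_cases ht : Rv K (ts + (1 + γ) • (t - ts)) < ε * S
    · rw [indicator_of_mem (show t ∈ {t | Rv K (ts + (1 + γ) • (t - ts)) < ε * S} from ht)]
      refine le_trans ?_ le_add_self
      calc ∫⁻ x in sl K t, ENNReal.ofReal (G (T (x, t)))
          ≤ ∫⁻ _ in sl K t, 4 := lintegral_mono fun x => by
            rw [show (4 : ℝ≥0∞) = ENNReal.ofReal 4 by norm_num]
            exact ENNReal.ofReal_le_ofReal (hG4 _)
        _ = _ := by simp
    · rw [indicator_of_notMem (show t ∉ {t | Rv K (ts + (1 + γ) • (t - ts)) < ε * S} from ht),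
        add_zero]
      rw [not_lt] at ht
      by_cases hne : volume (sl K t) = 0
      · rw [hne, mul_zero, nonpos_iff_eq_zero]
        exact setLIntegral_measure_zero _ _ hne
      have hp := H2 N k K h T s S hs hSp hS (fun t0 ht0 => hfib t0 fun t' =>
        (mul_le_mul_of_nonneg_left (hS t') hε.le).trans ht0) hvar ts hts2 t ht f _ hf hL0 hfb hfd
      rw [← hc, hL2, show δ / 4 + δ / 4 = δ / 2 by ring] at hp
      unfold ey lw at hp
      rw [← hG, integral_map (hTt t).measurable.aemeasurable hGc.aestronglyMeasurable] at hp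
      have hTt' := hTt t
      rw [Pool.Agent.R754.KG.un_lint_ofReal hne (sl_bd h t) (by fun_prop) (fun x => hG0 _),
        mul_comm]
      exact mul_le_mul_left (ENNReal.ofReal_le_ofReal hp) _
  have hFc : Continuous fun z : E N × E d => G (T z) := hGc.comp hTc
  have hmain : ∫⁻ z in K, ENNReal.ofReal (G (T z)) ≤ ENNReal.ofReal δ * volume K := by
    rw [fub h _ hFc.measurable.ennreal_ofReal]
    have hm1 : MeasurableSet {t | Rv K (ts + (1 + γ) • (t - ts)) < ε * S} :=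
      ((R_meas h).comp (by fun_prop : Measurable fun t : E d => ts + (1 + γ) • (t - ts)))
        measurableSet_Iio
    calc ∫⁻ t, ∫⁻ x in sl K t, ENNReal.ofReal (G (T (x, t)))
        ≤ ∫⁻ t, ENNReal.ofReal (δ / 2) * volume (sl K t) +
          {t | Rv K (ts + (1 + γ) • (t - ts)) < ε * S}.indicator
            (fun t => 4 * volume (sl K t)) t := lintegral_mono hpt
      _ = ENNReal.ofReal (δ / 2) * volume K +
          4 * ∫⁻ t in {t | Rv K (ts + (1 + γ) • (t - ts)) < ε * S}, volume (sl K t) := by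
          rw [lintegral_add_left ((vol_meas h).const_mul _), lintegral_const_mul _ (vol_meas h),
            ← vol_fub h, lintegral_indicator hm1, lintegral_const_mul _ (vol_meas h)]
      _ ≤ ENNReal.ofReal (δ / 2) * volume K + 4 * (ENNReal.ofReal (δ / 16) * volume K) := by
          gcongr
          exact H1 N K h S ts hSp hS hts1
      _ = ENNReal.ofReal (δ / 2 + 4 * (δ / 16)) * volume K := by
          rw [ENNReal.ofReal_add (by positivity) (by positivity),
            ENNReal.ofReal_mul (show (0 : ℝ) ≤ 4 by norm_num),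
            show ENNReal.ofReal 4 = (4 : ℝ≥0∞) by norm_num]
          ring
      _ ≤ _ := by
          refine mul_le_mul_left (ENNReal.ofReal_le_ofReal ?_) _
          linarith
  rw [Pool.Agent.R754.KG.un_lint_ofReal h.pos.ne' (bdd h) hFc (fun z => hG0 _), mul_comm] at hmain
  have h2 := (ENNReal.mul_le_mul_iff_left h.pos.ne' (kfin h)).1 hmain
  exact (ENNReal.ofReal_le_ofReal_iff hδ.le).1 h2

/-- **Concentration for fibred bodies, from the large fibres.** -/
theorem ccL (hW : S_WH) (hP : S_PX) (hT : S_TAIL) (hC : S_CHNWL) (hK : S_KWC) (d : ℕ)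
    (δ : ℝ) (hδ : 0 < δ) : ∃ ε δ' : ℝ, 0 < ε ∧ 0 < δ' ∧ ∀ κ' : ℝ, 0 < κ' → ∃ κ : ℝ, 0 < κ ∧
    ∀ (N n : ℕ) (e : (E N × E d) ≃ₗ[ℝ] E n)
    (K : Set (E N × E d)), CB K → (∀ t, (∀ t', ε * Rv K t' ≤ Rv K t) → CcW κ' δ' (ind (sl K t))) →
    CcW κ δ (ind (e '' K)) := by
  obtain ⟨ε, δ1, hε, hδ1, H0⟩ := ylevL hT hC d (δ / 2) (by positivity)
  refine ⟨ε, δ1 / 17, hε, by positivity, fun κ' hκ' => ?_⟩
  obtain ⟨A0, hA0, HK⟩ := hK κ' (δ1 / 17) hκ' (by positivity)
  obtain ⟨C, κ, hCp, hκ, H⟩ := H0 A0 hA0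
  obtain ⟨κ1, hκ1⟩ : ∃ κ1, κ1 = min (κ / 2) (Real.sqrt (δ / (4 * C))) := ⟨_, rfl⟩
  have hκ1p : 0 < κ1 := by rw [hκ1]; exact lt_min (by positivity) (Real.sqrt_pos.2 (by positivity))
  have hκ1a : κ1 ≤ κ / 2 := by rw [hκ1]; exact min_le_left _ _
  have hκ1b : 2 * C * κ1 ^ 2 ≤ δ / 2 := by
    have h1 : κ1 ^ 2 ≤ δ / (4 * C) := by
      rw [← Real.sq_sqrt (show 0 ≤ δ / (4 * C) by positivity)]
      refine pow_le_pow_left₀ hκ1p.le ?_ 2
      rw [hκ1]
      exact min_le_right _ _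
    calc 2 * C * κ1 ^ 2 ≤ 2 * C * (δ / (4 * C)) := by gcongr
      _ = δ / 2 := by
          field_simp
          norm_num
  refine ⟨κ1, hκ1p, fun N n e K h hfib0 k hk T s hs hvar v hv hvb hvd => ?_⟩
  have hfib : ∀ t, (∀ t', ε * Rv K t' ≤ Rv K t) → KW A0 δ1 (sl K t) := by
    intro t ht0
    have ht : volume (sl K t) ≠ 0 := by
      obtain ⟨S, hSp, -, ts, hts⟩ := sup_ex h (ρ := 1 / 2) (by norm_num)
      have h2 : 0 < Rv K ts := lt_of_lt_of_le (by positivity) hts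
      exact K5Waux.vol_ne (lt_of_lt_of_le (mul_pos hε h2) (ht0 ts))
    have h1 := HK N (sl K t) (sl_comp h t) (sl_conv h t) (int_of_vol (sl_conv h t) ht) (hfib0 t ht0)
    rwa [mul_div_cancel₀ _ (by norm_num : (17 : ℝ) ≠ 0)] at h1
  let e' : (E N × E d) ≃L[ℝ] E n := e.toContinuousLinearEquiv
  have hme : MeasurableSet (e '' K) :=
    e'.toHomeomorph.measurableEmbedding.measurableSet_image.2 (meas h)
  have hcp : IsCompact (e '' K) := h.comp.image e'.continuous
  have hcv : Convex ℝ (e '' K) := h.conv.linear_image e.toLinearMap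
  have hvp : 0 < volume (e '' K) := by
    rw [pos_iff_ne_zero]
    intro h0
    have hv0 : (volume : Measure (E N × E d)).IsAddHaarMeasure :=
      inferInstanceAs
        (Measure.prod (volume : Measure (E N)) (volume : Measure (E d))).IsAddHaarMeasure
    have hh : (Measure.map e' (volume : Measure (E N × E d))).IsAddHaarMeasure :=
      e'.isAddHaarMeasure_map volume
    obtain ⟨c, hc⟩ : ∃ c : NNReal, Measure.map e' (volume : Measure (E N × E d)) =
        c • (volume : Measure (E n)) := ⟨_, Measure.isAddLeftInvariant_eq_smul _ _⟩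
    have hme' : MeasurableEmbedding e' := e'.toHomeomorph.measurableEmbedding
    have hKe : e' ⁻¹' (e '' K) = K := preimage_image_eq K e.injective
    have h2 : (Measure.map e' (volume : Measure (E N × E d))) (e '' K) = volume K := by
      rw [hme'.map_apply, hKe]
    rw [hc] at h2
    have h3 : (c • (volume : Measure (E n))) (e '' K) = c * volume (e '' K) := rfl
    rw [h3, h0, mul_zero] at h2
    exact h.pos.ne h2
  have hTc : Continuous T := T.continuous_of_finiteDimensional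
  have hprob : IsProbabilityMeasure (un (e '' K)) :=
    Pool.Agent.R754.KG.un_prob hvp.ne' hcp.measure_lt_top.ne
  obtain ⟨ν, hν⟩ : ∃ ν, ν = Measure.map T (un (e '' K)) := ⟨_, rfl⟩
  have hint : ∀ F : E k → ℝ, Continuous F → ∫ x, F x ∂ν = ∫ x, F (T x) ∂(un (e '' K)) := by
    intro F hF
    rw [hν, integral_map hTc.measurable.aemeasurable hF.aestronglyMeasurable]
  obtain ⟨B, hB⟩ := (hcp.image hTc).isBounded.exists_norm_le
  have hPB : PB (max B 0) ν := by
    refine ⟨?_, ?_⟩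
    · rw [hν]
      exact Measure.isProbabilityMeasure_map hTc.measurable.aemeasurable
    · rw [hν, ae_map_iff hTc.measurable.aemeasurable
        (measurableSet_le (by fun_prop) (by fun_prop))]
      unfold un
      refine Measure.ae_smul_measure ?_ _
      refine (ae_restrict_iff' hme).2 (Eventually.of_forall fun x hx => ?_)
      exact (hB _ (mem_image_of_mem _ hx)).trans (le_max_left _ _)
  have hhp : 0 < C * s := by positivity
  have hPL := hW n k (e '' K) T hcv hcp hvp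
  rw [← hν] at hPL
  obtain ⟨f, hf, hfb, hfd, hfin⟩ := hP k (C * s) (max B 0) (κ1 / Real.sqrt s) ν hhp
    (le_max_right _ _) (by positivity) hPB hPL v hv hvb hvd
  have hvc : Continuous v := hv.continuous
  have hfc : Continuous f := hf.continuous
  obtain ⟨c, hc⟩ := H N k K h hfib (T ∘ₗ e.toLinearMap) s hs (fun θ hθ => by
    have h1 := hvar θ hθ
    rw [Pool.Agent.R754.KG.VW_ind hme, Pool.Agent.R754.KG.un_img e h.pos.ne' (kfin h),
      Pool.Agent.R754.KG.un_img e h.pos.ne' (kfin h)] at h1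
    exact h1) f hf hfb (fun y => by
      refine (hfd y).trans ?_
      rw [← mul_div_assoc]
      exact div_le_div_of_nonneg_right (by linarith) (Real.sqrt_nonneg _))
  have hfb2 : ∀ y, |f y ^ 2| ≤ 1 := fun y => by
    rw [abs_pow]
    exact pow_le_one₀ (abs_nonneg _) (hfb y)
  have hqc : Continuous fun y => (f y - c) ^ 2 := by fun_prop
  have hqb : ∀ y, |(f y - c) ^ 2| ≤ (1 + |c|) ^ 2 := fun y => by
    rw [abs_pow]
    refine pow_le_pow_left₀ (abs_nonneg _) ?_ 2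
    exact (abs_sub _ _).trans (by linarith [hfb y])
  have g1 : Continuous (gs (C * s) f) := Pool.Agent.H888R2.KT.N7x.cont_gs _ hhp f hfc 1 hfb
  have g2 : Continuous (gs (C * s) fun y => f y ^ 2) :=
    Pool.Agent.H888R2.KT.N7x.cont_gs _ hhp _ (by fun_prop) 1 hfb2
  have g3 : Continuous (gs (C * s) fun y => (f y - c) ^ 2) :=
    Pool.Agent.H888R2.KT.N7x.cont_gs _ hhp _ hqc _ hqb
  have hlow : ey (C * s) ν (fun y => f y ^ 2) - ey (C * s) ν f ^ 2 ≤ δ / 2 := by
    have hun : ∀ F : E n → ℝ, Continuous F → Integrable F (un (e '' K)) := fun F hF =>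
      Pool.Agent.R754.KG.un_int hvp.ne' hcp.isBounded hF
    have h1 : ∫ x, gs (C * s) (fun y => (f y - c) ^ 2) (T x) ∂(un (e '' K)) ≤ δ / 2 := by
      rw [Pool.Agent.R754.KG.un_img e h.pos.ne' (kfin h)]
      exact hc
    have h2 : ∀ x, gs (C * s) (fun y => (f y - c) ^ 2) x = gs (C * s) (fun y => f y ^ 2) x +
        (-(2 * c) * gs (C * s) f x + c ^ 2) := by
      intro x
      rw [gs_sq _ hhp f hfc 1 hfb c x]
      ring
    simp only [h2] at h1
    have j2 : Integrable (fun x => gs (C * s) (fun y => f y ^ 2) (T x)) (un (e '' K)) :=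
      hun _ (g2.comp hTc)
    have j1 : Integrable (fun x => -(2 * c) * gs (C * s) f (T x)) (un (e '' K)) :=
      (hun _ (g1.comp hTc)).const_mul _
    have j3 : Integrable (fun x => -(2 * c) * gs (C * s) f (T x) + c ^ 2) (un (e '' K)) :=
      j1.add (integrable_const _)
    rw [integral_add j2 j3, integral_add j1 (integrable_const _), integral_const_mul] at h1
    unfold ey
    rw [hint _ g1, hint _ g2]
    simp only [integral_const, probReal_univ, smul_eq_mul, one_mul] at h1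
    nlinarith [sq_nonneg ((∫ x, gs (C * s) f (T x) ∂(un (e '' K))) - c)]
  rw [hint _ (by fun_prop), hint _ hvc] at hfin
  rw [Pool.Agent.R754.KG.VW_ind hme]
  have h5 : 2 * (C * s) * (κ1 / Real.sqrt s) ^ 2 = 2 * C * κ1 ^ 2 := by
    rw [div_pow, Real.sq_sqrt hs.le]
    field_simp
  rw [h5] at hfin
  linarith

end MM

/-- **CCL.** -/
theorem t_CCL : Pool.Agent.N483.KM.S_CCL := fun d δ hδ =>
  ccL wh pxR tlR (chnwL geo mom eta fib (plh zn_ok) tmR gp) kw_of_cc d δ hδ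

end Pool.Agent.N27.KM
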